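import Pool.Agent.Helper34.C5T.Chk

/-!
# The checker: bits and sums
-/

open Finset

namespace Pool.Agent.Helper34.C5T

theorem tb_eq (t x : ℕ) : tb t x = t.testBit x := by
  unfold tb
  rw [Nat.testBit_eq_decide_div_mod_eq, ← Nat.shiftRight_eq_div_pow]
  have h : Nat.land (Nat.shiftRight t x) 1 = (t >>> x) % 2 := Nat.and_one_is_mod _
  rw [h]
  by_cases h1 : (t >>> x) % 2 = 1
  · rw [h1]
    rfl
  · have h2 : (t >>> x) % 2 = 0 := by omega
    rw [h2]
    rfl

theorem cond_tt {a b : Bool} : cond a b false = true ↔ a = true ∧ b = true := by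
  cases a <;> cases b <;> decide

theorem cond_or {a b : Bool} : cond a true b = true ↔ a = true ∨ b = true := by
  cases a <;> cases b <;> decide

theorem wt_cons (a : ℕ) (s : List ℕ) (m : ℕ) : wt (a :: s) m = a * (m % 2) + wt s (m / 2) := rfl

theorem wt_nil (m : ℕ) : wt [] m = 0 := rfl

theorem pull_cons (a : ℕ) (s : List ℕ) (m : ℕ) : pull (a :: s) m = (m >>> a) % 2 + 2 * pull s m :=
  rfl

theorem wt_eq (y : List ℕ) (m : ℕ) :
    wt y m = ∑ x ∈ range y.length, y.getD x 0 * (m.testBit x).toNat := by
  induction y generalizing m with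
  | nil => rfl
  | cons a s ih =>
    rw [wt_cons, List.length_cons, sum_range_succ', ih, add_comm]
    congr 1
    · apply sum_congr rfl
      intro x _
      rw [Nat.testBit_add_one, List.getD_cons_succ]
    · rw [Nat.testBit_zero, List.getD_cons_zero]
      congr 1
      by_cases h : m % 2 = 1
      · rw [h]
        rfl
      · have h2 : m % 2 = 0 := by omega
        rw [h2]
        rfl

theorem sl_eq (y : List ℕ) : sl y = ∑ x ∈ range y.length, y.getD x 0 := by
  induction y with
  | nil => rfl
  | cons a s ih =>
    rw [List.length_cons, sum_range_succ', show sl (a :: s) = a + sl s from rfl, ih, add_comm]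
    congr 1

theorem pull_testBit (s : List ℕ) (m x : ℕ) (hx : x < s.length) :
    (pull s m).testBit x = m.testBit (s.getD x 0) := by
  induction s generalizing x with
  | nil => exact absurd hx (by simp)
  | cons a s ih =>
    rw [pull_cons]
    have h0 : (m >>> a) % 2 < 2 := Nat.mod_lt _ (by norm_num)
    rcases x with _ | x
    · rw [List.getD_cons_zero, Nat.testBit_zero, Nat.testBit_eq_decide_div_mod_eq,
        ← Nat.shiftRight_eq_div_pow]
      congr 1
      rw [Nat.add_mul_mod_self_left, Nat.mod_mod]
    · rw [List.getD_cons_succ, Nat.testBit_add_one, ← ih x (by simpa using hx)]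
      congr 1
      omega

theorem pull_lt (s : List ℕ) (m : ℕ) : pull s m < 2 ^ s.length := by
  induction s with
  | nil => exact Nat.one_pos
  | cons a s ih =>
    rw [pull_cons, List.length_cons, pow_succ]
    have h0 : (m >>> a) % 2 < 2 := Nat.mod_lt _ (by norm_num)
    omega

theorem orp_testBit (s : List ℕ) (y : ℕ) (h : (orp s).testBit y = true) :
    ∃ x < s.length, s.getD x 0 = y := by
  induction s with
  | nil =>
    exfalso
    rw [show orp [] = 0 from rfl, Nat.zero_testBit] at h
    exact Bool.false_ne_true h
  | cons a s ih =>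
    have h1 : orp (a :: s) = (1 <<< a) ||| orp s := rfl
    rw [h1, Nat.testBit_or, Bool.or_eq_true] at h
    rcases h with h | h
    · refine ⟨0, by simp, ?_⟩
      rw [List.getD_cons_zero]
      rw [Nat.one_shiftLeft, Nat.testBit_two_pow] at h
      exact of_decide_eq_true h
    · obtain ⟨x, hx, hx2⟩ := ih h
      refine ⟨x + 1, by simpa using hx, ?_⟩
      rw [List.getD_cons_succ]
      exact hx2

theorem dy_length (n c : ℕ) : (dy n c).length = n := by
  induction n generalizing c with
  | zero => rfl
  | succ n ih =>
    show (_ :: dy n _).length = n + 1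
    rw [List.length_cons, ih]

theorem dp_length (n c : ℕ) : (dp n c).length = n := by
  induction n generalizing c with
  | zero => rfl
  | succ n ih =>
    show (_ :: dp n _).length = n + 1
    rw [List.length_cons, ih]

theorem sw_eq (y : List ℕ) (K : List ℕ) : sw y K = (K.map (wt y)).sum := by
  induction K with
  | nil => rfl
  | cons m K ih =>
    rw [List.map_cons, List.sum_cons, ← ih]
    rfl

theorem st_eq (c3 c2 : ℕ) (K : List ℕ) : st c3 c2 K = (K.map (thr c3 c2)).sum := by
  induction K with
  | nil => rfl
  | cons m K ih =>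
    rw [List.map_cons, List.sum_cons, ← ih]
    rfl

theorem aal_iff {f : ℕ → Bool} {l : List ℕ} : aal f l = true ↔ ∀ a ∈ l, f a = true := by
  induction l with
  | nil =>
    constructor
    · intro _ a ha
      exact absurd ha (by simp)
    · intro _
      rfl
  | cons a l ih =>
    have h : aal f (a :: l) = cond (f a) (aal f l) false := rfl
    rw [h, cond_tt, ih]
    constructor
    · rintro ⟨h1, h2⟩ c hc
      rcases List.mem_cons.mp hc with rfl | hc
      · exact h1
      · exact h2 c hc
    · intro h1
      exact ⟨h1 a (by simp), fun c hc => h1 c (List.mem_cons_of_mem _ hc)⟩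

theorem aan_iff {f : ℕ → Bool} {l : List ℕ} : aan f l = true ↔ ∃ a ∈ l, f a = true := by
  induction l with
  | nil =>
    constructor
    · intro h
      exact absurd (show false = true from h) Bool.false_ne_true
    · rintro ⟨a, ha, _⟩
      exact absurd ha (by simp)
  | cons a l ih =>
    have h : aan f (a :: l) = cond (f a) true (aan f l) := rfl
    rw [h, cond_or, ih]
    constructor
    · rintro (h1 | ⟨c, hc, h2⟩)
      · exact ⟨a, by simp, h1⟩
      · exact ⟨c, List.mem_cons_of_mem _ hc, h2⟩
    · rintro ⟨c, hc, h2⟩
      rcases List.mem_cons.mp hc with rfl | hc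
      · exact Or.inl h2
      · exact Or.inr ⟨c, hc, h2⟩

theorem sub_le {l B : List ℕ} (h : sub l B = true) : (l : Multiset ℕ) ≤ (B : Multiset ℕ) := by
  induction l generalizing B with
  | nil => exact Multiset.zero_le _
  | cons a l ih =>
    have h1 : sub (a :: l) B = cond (B.elem a) (sub l (B.erase a)) false := rfl
    rw [h1, cond_tt] at h
    have h2 : a ∈ B := by
      have := h.1
      rwa [List.elem_iff] at this
    have h3 := ih h.2
    rw [← Multiset.cons_coe]
    have h4 : (B : Multiset ℕ) = a ::ₘ ((B.erase a : List ℕ) : Multiset ℕ) := by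
      rw [← Multiset.coe_erase, Multiset.cons_erase]
      exact Multiset.mem_coe.mpr h2
    rw [h4]
    exact Multiset.cons_le_cons a h3

/-- Adding a new power of two. -/
theorem testBit_add_pow (x S y : ℕ) (h : S.testBit x = false) (hy : y ≠ x) :
    (S + 2 ^ x).testBit y = S.testBit y := by
  induction x generalizing S y with
  | zero =>
    rcases y with _ | y
    · exact absurd rfl hy
    · rw [Nat.testBit_zero] at h
      have h1 : ¬ S % 2 = 1 := of_decide_eq_false h
      rw [Nat.testBit_add_one, Nat.testBit_add_one]
      congr 1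
      rw [pow_zero]
      omega
  | succ x ih =>
    rcases y with _ | y
    · rw [Nat.testBit_zero, Nat.testBit_zero]
      congr 1
      rw [pow_succ]
      have : (S + 2 ^ x * 2) % 2 = S % 2 := Nat.add_mul_mod_self_right _ _ _
      rw [this]
    · rw [Nat.testBit_add_one] at h
      rw [Nat.testBit_add_one, Nat.testBit_add_one]
      have h1 : (S + 2 ^ (x + 1)) / 2 = S / 2 + 2 ^ x := by
        rw [pow_succ]
        omega
      rw [h1]
      exact ih (S / 2) y h (by omega)

end Pool.Agent.Helper34.C5T
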