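import Mathlib

/-!
# A checker for configurations of blocks on ten points
-/

namespace Pool.Agent.Helper34.C5T

/-- One step of the certificate. -/
structure Rec where
  /-- the configuration, in base 1024 -/
  k : ℕ
  /-- the weights of the points, in base 1024 -/
  y : ℕ
  /-- the threshold for the triples -/
  c3 : ℕ
  /-- the threshold for the pair -/
  c2 : ℕ
  /-- the weight of the cut -/
  lam : ℕ
  /-- the cut -/
  cut : ℕ
  /-- the references -/
  refs : List ℕ

/-- The masks of the triples. -/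
def m3 : List ℕ := [
  7, 11, 13, 14, 19, 21, 22, 25, 26, 28, 35, 37, 38, 41, 42, 44, 49, 50, 52, 56, 67, 69, 70,
  73, 74, 76, 81, 82, 84, 88, 97, 98, 100, 104, 112, 131, 133, 134, 137, 138, 140, 145, 146,
  148, 152, 161, 162, 164, 168, 176, 193, 194, 196, 200, 208, 224, 259, 261, 262, 265, 266,
  268, 273, 274, 276, 280, 289, 290, 292, 296, 304, 321, 322, 324, 328, 336, 352, 385, 386,
  388, 392, 400, 416, 448, 515, 517, 518, 521, 522, 524, 529, 530, 532, 536, 545, 546, 548,
  552, 560, 577, 578, 580, 584, 592, 608, 641, 642, 644, 648, 656, 672, 704, 769, 770, 772,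
  776, 784, 800, 832, 896]

/-- The masks of the pairs. -/
def m2 : List ℕ := [
  3, 5, 6, 9, 10, 12, 17, 18, 20, 24, 33, 34, 36, 40, 48, 65, 66, 68, 72, 80, 96, 129, 130,
  132, 136, 144, 160, 192, 257, 258, 260, 264, 272, 288, 320, 384, 513, 514, 516, 520, 528,
  544, 576, 640, 768]

/-- The digits in base `1024`. -/
def dy : ℕ → ℕ → List ℕ
  | 0, _ => []
  | n + 1, c => Nat.mod c 1024 :: dy n (Nat.div c 1024)

/-- The nonzero digits in base `1024`. -/
def dk : ℕ → ℕ → List ℕ
  | 0, _ => []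
  | n + 1, c => cond (Nat.beq c 0) [] (Nat.mod c 1024 :: dk n (Nat.div c 1024))

/-- The digits in base `16`. -/
def dp : ℕ → ℕ → List ℕ
  | 0, _ => []
  | n + 1, c => Nat.mod c 16 :: dp n (Nat.div c 16)

/-- The weight of a mask. -/
noncomputable def wt (l : List ℕ) : ℕ → ℕ :=
  List.rec (fun _ => 0) (fun a _ ih m => Nat.add (Nat.mul a (Nat.mod m 2)) (ih (Nat.div m 2))) l

/-- The number of points. -/
noncomputable def pc (m : ℕ) : ℕ := wt [1, 1, 1, 1, 1, 1, 1, 1, 1, 1] m

/-- Relabelling a mask. -/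
noncomputable def pull (l : List ℕ) (m : ℕ) : ℕ :=
  List.rec 0 (fun a _ ih => Nat.add (Nat.mod (Nat.shiftRight m a) 2) (Nat.mul 2 ih)) l

/-- The mask of a set of points. -/
noncomputable def orp (l : List ℕ) : ℕ :=
  List.rec 0 (fun a _ ih => Nat.lor (Nat.shiftLeft 1 a) ih) l

/-- The bit `x` of `t`. -/
def tb (t x : ℕ) : Bool := Nat.beq (Nat.land (Nat.shiftRight t x) 1) 1

/-- Does the mask `m` cross the cut `U`? -/
def crs (U m : ℕ) : Bool := cond (Nat.beq (Nat.land m U) 0) false (not (Nat.beq (Nat.land m U) m))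

/-- Sets not containing `x`, as a mask of masks. -/
noncomputable def nx (x : ℕ) : ℕ := Nat.div (Nat.sub (Nat.pow 2 1024) 1) (Nat.add (Nat.pow 2 (Nat.pow 2 x)) 1)

/-- Adding the point `x`. -/
noncomputable def ax (x C : ℕ) : ℕ := Nat.lor C (Nat.shiftLeft (Nat.land C (nx x)) (Nat.pow 2 x))

/-- Adding the mask `t`. -/
noncomputable def ex (t : ℕ) (l : List ℕ) : ℕ → ℕ :=
  List.rec (fun C => C) (fun x _ ih C => ih (cond (tb t x) (ax x C) C)) l

/-- Adding a mask of the configuration. -/
noncomputable def exK (C : ℕ) (l : List ℕ) : ℕ :=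
  List.rec C (fun t _ ih => Nat.lor (ex t [0, 1, 2, 3, 4, 5, 6, 7, 8, 9] C) ih) l

/-- Adding a point. -/
noncomputable def exS (C : ℕ) (l : List ℕ) : ℕ :=
  List.rec 0 (fun x _ ih => Nat.lor (ax x C) ih) l

/-- One more block. -/
noncomputable def nxt (K : List ℕ) (C : ℕ) : ℕ := Nat.lor (exK C K) (exS C [0, 1, 2, 3, 4, 5, 6, 7, 8, 9])

/-- Is `l` a part of `B`? -/
def sub : List ℕ → List ℕ → Bool
  | [], _ => true
  | a :: l, B => cond (B.elem a) (sub l (B.erase a)) false

/-- The sum of the weights. -/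
noncomputable def sw (y : List ℕ) (l : List ℕ) : ℕ :=
  List.rec 0 (fun m _ ih => Nat.add (wt y m) ih) l

/-- The threshold. -/
noncomputable def thr (c3 c2 m : ℕ) : ℕ := cond (Nat.beq (pc m) 3) c3 c2

/-- The sum of the thresholds. -/
noncomputable def st (c3 c2 : ℕ) (l : List ℕ) : ℕ :=
  List.rec 0 (fun m _ ih => Nat.add (thr c3 c2 m) ih) l

/-- The sum of a list. -/
noncomputable def sl (l : List ℕ) : ℕ :=
  List.rec 0 (fun a _ ih => Nat.add a ih) l

/-- The weight of the cut. -/
def cw (lam U m : ℕ) : ℕ := cond (crs U m) lam 0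

/-- Look up a configuration. -/
def cfg (T : List (List Rec)) (j : ℕ) : List ℕ :=
  dk 12 (((T.getD (Nat.div j 16) []).getD (Nat.mod j 16) ⟨0, 0, 0, 0, 0, 0, []⟩).k)

/-- Every member passes. -/
noncomputable def aal (f : ℕ → Bool) (l : List ℕ) : Bool :=
  List.rec true (fun a _ ih => cond (f a) ih false) l

/-- Some member passes. -/
noncomputable def aan (f : ℕ → Bool) (l : List ℕ) : Bool :=
  List.rec false (fun a _ ih => cond (f a) true ih) l

/-- Check a reference. -/
noncomputable def ref (T : List (List Rec)) (i : ℕ) (K : List ℕ) (m r : ℕ) : Bool :=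
  cond (Nat.beq (Nat.mod r 1024) m)
    (cond (Nat.blt (Nat.mod (Nat.div r 1024) 1024) i)
      (cond (Nat.beq (orp (dp 10 (Nat.div r 1048576))) 1023)
        (sub (cfg T (Nat.mod (Nat.div r 1024) 1024))
          ((m :: K).map (pull (dp 10 (Nat.div r 1048576)))))
        false) false) false

/-- Check a mask. -/
noncomputable def chm (T : List (List Rec)) (i : ℕ) (K y : List ℕ) (c lam U C : ℕ) (rs : List ℕ) (m : ℕ) :
    Bool :=
  cond (Nat.ble (Nat.add (wt y m) (cw lam U m)) c) true
    (cond (tb C (Nat.sub 1023 m)) true (aan (ref T i K m) rs))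

/-- Check the cut. -/
noncomputable def chc (K : List ℕ) (lam U : ℕ) : Bool :=
  cond (Nat.beq lam 0) true
    (cond (Nat.beq U 0) false (cond (Nat.blt U 1023) (aal (fun m => not (crs U m)) K) false))

/-- Check a step. -/
noncomputable def chr (T : List (List Rec)) (i : ℕ) (r : Rec) (K y : List ℕ) (C : ℕ) : Bool :=
  cond (chc K r.lam r.cut)
    (cond (Nat.blt (Nat.add (Nat.add (sw y K) (Nat.mul 16 r.c3)) r.c2)
        (Nat.add (Nat.add (Nat.mul 5 (sl y)) (st r.c3 r.c2 K)) r.lam))
      (cond (aal (chm T i K y r.c3 r.lam r.cut C r.refs) m3)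
        (aal (chm T i K y r.c2 r.lam r.cut C r.refs) m2) false) false) false

/-- Check the step `i`. -/
noncomputable def chi (T : List (List Rec)) (i : ℕ) (r : Rec) : Bool :=
  chr T i r (dk 12 r.k) (dy 10 r.y) (nxt (dk 12 r.k) (nxt (dk 12 r.k) (nxt (dk 12 r.k) 1)))

end Pool.Agent.Helper34.C5T
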