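import Pool.Agent.Helper34.C5T.Dat

/-!
# The certificate is correct
-/

namespace Pool.Agent.Helper34.C5T

/-- The step `i`. -/
def rcd (i : ℕ) : Rec :=
  (tbl.getD (Nat.div i 16) []).getD (Nat.mod i 16) ⟨0, 0, 0, 0, 0, 0, []⟩

theorem ok0 : ∀ i < 54, chi tbl (0 + i) (rcd (0 + i)) = true := by decide +kernel

theorem ok1 : ∀ i < 54, chi tbl (54 + i) (rcd (54 + i)) = true := by decide +kernel

theorem ok2 : ∀ i < 54, chi tbl (108 + i) (rcd (108 + i)) = true := by decide +kernel

theorem ok3 : ∀ i < 53, chi tbl (162 + i) (rcd (162 + i)) = true := by decide +kernel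

theorem ok {i : ℕ} (hi : i < 215) : chi tbl i (rcd i) = true := by
  rcases Nat.lt_or_ge i 54 with h | h
  · have := ok0 i h
    rwa [Nat.zero_add] at this
  rcases Nat.lt_or_ge i 108 with h1 | h1
  · have := ok1 (i - 54) (by omega)
    rwa [Nat.add_sub_cancel' h] at this
  rcases Nat.lt_or_ge i 162 with h2 | h2
  · have := ok2 (i - 108) (by omega)
    rwa [Nat.add_sub_cancel' h1] at this
  · have := ok3 (i - 162) (by omega)
    rwa [Nat.add_sub_cancel' h2] at this

end Pool.Agent.Helper34.C5T
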