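import Pool.Agent.Helper34.C5T.Bit
import Pool.Agent.Helper74.C5.Comb

/-!
# Soundness of the checker
-/

set_option linter.unusedSectionVars false

open Finset

namespace Pool.Agent.Helper34.C5T

open Pool.Agent.Helper20.C5

variable {α ι : Type} [DecidableEq α] [DecidableEq ι] [Fintype ι]

theorem nx_lt : ∀ x < 10, nx x < 2 ^ 1024 := by decide +kernel

theorem nx_spec0 : ∀ x < 10, ∀ S < 1024, ((nx x).testBit S && S.testBit x) = false := by
  decide +kernel

theorem lt_pow_aux {a n S : ℕ} (h : a < 2 ^ n) (hn : n ≤ S) : a < 2 ^ S :=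
  h.trans_le (Nat.pow_le_pow_right (by norm_num) hn)

theorem nx_spec {x S : ℕ} (hx : x < 10) (h : (nx x).testBit S = true) : S.testBit x = false := by
  rcases Nat.lt_or_ge S 1024 with h1 | h1
  · have := nx_spec0 x hx S h1
    rw [h, Bool.true_and] at this
    exact this
  · exfalso
    have h2 : nx x < 2 ^ S := lt_pow_aux (nx_lt x hx) h1
    rw [Nat.testBit_lt_two_pow h2] at h
    exact Bool.false_ne_true h

theorem ax_testBit {x C S : ℕ} (hx : x < 10) (h : (ax x C).testBit S = true) :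
    C.testBit S = true ∨ ∃ S', C.testBit S' = true ∧ S'.testBit x = false ∧ S = S' + 2 ^ x := by
  have h1 : ax x C = C ||| ((C &&& nx x) <<< 2 ^ x) := rfl
  rw [h1, Nat.testBit_or, Bool.or_eq_true] at h
  rcases h with h | h
  · exact Or.inl h
  · right
    rw [Nat.testBit_shiftLeft, Bool.and_eq_true, Nat.testBit_and, Bool.and_eq_true] at h
    obtain ⟨h2, h3, h4⟩ := h
    have h5 : 2 ^ x ≤ S := of_decide_eq_true h2
    exact ⟨S - 2 ^ x, h3, nx_spec hx h4, by omega⟩

/-- The mask of a block. -/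
def msk (b : ι → Finset α) (e : Fin 10 → α) (i : ι) : ℕ :=
  Nat.ofBits fun x : Fin 10 => decide (e x ∈ b i)

theorem msk_testBit (b : ι → Finset α) (e : Fin 10 → α) (i : ι) (x : Fin 10) :
    (msk b e i).testBit x = decide (e x ∈ b i) := by
  unfold msk
  rw [Nat.testBit_ofBits_lt _ _ x.2]

theorem msk_lt (b : ι → Finset α) (e : Fin 10 → α) (i : ι) : msk b e i < 1024 :=
  Nat.ofBits_lt_two_pow _

theorem msk_pull (b : ι → Finset α) (e : Fin 10 → α) (i : ι) (s : List ℕ) (σ : Fin 10 → Fin 10)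
    (hs : s.length = 10) (hσ : ∀ x : Fin 10, (σ x : ℕ) = s.getD x 0) :
    pull s (msk b e i) = msk b (fun x => e (σ x)) i := by
  apply Nat.eq_of_testBit_eq
  intro x
  rcases Nat.lt_or_ge x 10 with hx | hx
  · have h1 := msk_testBit b (fun x => e (σ x)) i ⟨x, hx⟩
    rw [show ((⟨x, hx⟩ : Fin 10) : ℕ) = x from rfl] at h1
    rw [h1, pull_testBit s _ _ (by omega), ← hσ ⟨x, hx⟩, msk_testBit]
  · have h1 := pull_lt s (msk b e i)
    rw [hs] at h1
    have h2 : (2 : ℕ) ^ 10 ≤ 2 ^ x := Nat.pow_le_pow_right (by norm_num) hx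
    rw [Nat.testBit_lt_two_pow (h1.trans_le h2),
      Nat.testBit_lt_two_pow ((msk_lt b (fun x => e (σ x)) i).trans_le h2)]

/-- The sets of masks are coverable. -/
def G (b : ι → Finset α) (e : Fin 10 → α) (k : ℕ) (T : ℕ → Prop) (C : ℕ) : Prop :=
  ∀ S, C.testBit S = true → ∃ s : Finset ι, s.card ≤ k ∧
    ∀ x : Fin 10, S.testBit x = true → T x ∨ ∃ i ∈ s, e x ∈ b i

variable {b : ι → Finset α} {e : Fin 10 → α}

theorem G.mono {k l : ℕ} {T T' : ℕ → Prop} {C : ℕ} (h : G b e k T C) (hk : k ≤ l)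
    (hT : ∀ x, T x → T' x) : G b e l T' C := by
  intro S hS
  obtain ⟨s, h1, h2⟩ := h S hS
  refine ⟨s, h1.trans hk, fun x hx => ?_⟩
  rcases h2 x hx with h3 | h3
  · exact Or.inl (hT _ h3)
  · exact Or.inr h3

theorem G.lor {k : ℕ} {T : ℕ → Prop} {C D : ℕ} (h : G b e k T C) (h' : G b e k T D) :
    G b e k T (Nat.lor C D) := by
  intro S hS
  have h1 : (C ||| D).testBit S = true := hS
  rw [Nat.testBit_or, Bool.or_eq_true] at h1
  rcases h1 with h1 | h1
  · exact h S h1
  · exact h' S h1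

theorem G.zero {k : ℕ} {T : ℕ → Prop} : G b e k T 0 := by
  intro S hS
  rw [Nat.zero_testBit] at hS
  exact absurd hS Bool.false_ne_true

theorem G.stepA {k : ℕ} {T : ℕ → Prop} {C x : ℕ} (hx : x < 10) (h : G b e k T C) :
    G b e k (fun y => T y ∨ y = x) (ax x C) := by
  intro S hS
  rcases ax_testBit hx hS with h1 | ⟨S', h1, h2, rfl⟩
  · exact (h.mono le_rfl (T' := fun y => T y ∨ y = x) fun y hy => Or.inl hy) S h1
  · obtain ⟨s, h3, h4⟩ := h S' h1
    refine ⟨s, h3, fun y hy => ?_⟩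
    by_cases hyx : (y : ℕ) = x
    · exact Or.inl (Or.inr hyx)
    · rw [testBit_add_pow x S' y h2 hyx] at hy
      rcases h4 y hy with h5 | h5
      · exact Or.inl (Or.inl h5)
      · exact Or.inr h5

theorem G.stepE {k : ℕ} {t : ℕ} {l : List ℕ} (hl : ∀ x ∈ l, x < 10) {T : ℕ → Prop} {C : ℕ}
    (h : G b e k T C) (hT : ∀ x, T x → t.testBit x = true) :
    G b e k (fun y => t.testBit y = true) (ex t l C) := by
  induction l generalizing T C with
  | nil => exact h.mono le_rfl hT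
  | cons x l ih =>
    have h1 : ex t (x :: l) C = ex t l (cond (tb t x) (ax x C) C) := rfl
    rw [h1]
    have hx := hl x (by simp)
    have hl' : ∀ x ∈ l, x < 10 := fun y hy => hl y (List.mem_cons_of_mem _ hy)
    cases h2 : tb t x with
    | true =>
      apply ih hl' (h.stepA hx)
      rintro y (hy | rfl)
      · exact hT y hy
      · rw [← tb_eq]
        exact h2
    | false => exact ih hl' h hT

theorem G.blk {k : ℕ} {T : ℕ → Prop} {C : ℕ} {i : ι} (h : G b e k T C)
    (hT : ∀ x : Fin 10, T x → e x ∈ b i) : G b e (k + 1) (fun _ => False) C := by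
  intro S hS
  obtain ⟨s, h1, h2⟩ := h S hS
  refine ⟨insert i s, (card_insert_le i s).trans (Nat.add_le_add_right h1 1), fun x hx => ?_⟩
  right
  rcases h2 x hx with h3 | ⟨j, hj, h3⟩
  · exact ⟨i, mem_insert_self i s, hT x h3⟩
  · exact ⟨j, mem_insert_of_mem hj, h3⟩

theorem G.stepK {k : ℕ} {C : ℕ} (h : G b e k (fun _ => False) C) {K : List ℕ}
    (hK : ∀ t ∈ K, ∃ i, t = msk b e i) : G b e (k + 1) (fun _ => False) (exK C K) := by
  induction K with
  | nil => exact h.mono (Nat.le_succ k) fun _ hx => hx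
  | cons t K ih =>
    have h1 : exK C (t :: K) = Nat.lor (ex t [0, 1, 2, 3, 4, 5, 6, 7, 8, 9] C)
      (exK C K) := rfl
    rw [h1]
    refine G.lor ?_ (ih fun u hu => hK u (List.mem_cons_of_mem _ hu))
    obtain ⟨i, hi⟩ := hK t (by simp)
    have h2 := h.stepE (t := t) (l := [0, 1, 2, 3, 4, 5, 6, 7, 8, 9]) (by decide)
      (fun x hx => absurd hx (by simp))
    apply h2.blk (i := i)
    intro x hx
    rw [hi, msk_testBit] at hx
    exact of_decide_eq_true hx

theorem G.stepS {k : ℕ} {C : ℕ} (h : G b e k (fun _ => False) C) (hc : ∀ x, ∃ i, e x ∈ b i)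
    {l : List ℕ} (hl : ∀ x ∈ l, x < 10) : G b e (k + 1) (fun _ => False) (exS C l) := by
  induction l with
  | nil => exact G.zero
  | cons x l ih =>
    have h1 : exS C (x :: l) = Nat.lor (ax x C) (exS C l) := rfl
    rw [h1]
    refine G.lor ?_ (ih fun u hu => hl u (List.mem_cons_of_mem _ hu))
    have hx := hl x (by simp)
    obtain ⟨i, hi⟩ := hc ⟨x, hx⟩
    apply (h.stepA hx).blk (i := i)
    rintro y (hy | hy)
    · exact hy.elim
    · have : y = ⟨x, hx⟩ := Fin.ext hy
      rw [this]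
      exact hi

theorem G.stepN {k : ℕ} {C : ℕ} (h : G b e k (fun _ => False) C) {K : List ℕ}
    (hK : ∀ t ∈ K, ∃ i, t = msk b e i) (hc : ∀ x, ∃ i, e x ∈ b i) :
    G b e (k + 1) (fun _ => False) (nxt K C) :=
  (h.stepK hK).lor (h.stepS hc (by decide))

theorem G.one : G b e 0 (fun _ => False) 1 := by
  intro S hS
  refine ⟨∅, le_rfl, fun x hx => ?_⟩
  exfalso
  have h1 : S = 0 := by
    by_contra h2
    have h3 : (1 : ℕ) < 2 ^ S := Nat.one_lt_two_pow h2
    rw [Nat.testBit_lt_two_pow h3] at hS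
    exact Bool.false_ne_true hS
  rw [h1, Nat.zero_testBit] at hx
  exact Bool.false_ne_true hx

end Pool.Agent.Helper34.C5T
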