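import Pool.Agent.Helper34.C5T.Snd

/-!
# Soundness of a step
-/

set_option linter.unusedSectionVars false

open Finset

namespace Pool.Agent.Helper34.C5T

open Pool.Agent.Helper20.C5

variable {α ι : Type} [DecidableEq α] [DecidableEq ι] [Fintype ι]

/-- A connected system on ten points with seventeen blocks, without a cover by four blocks. -/
structure Tn (b : ι → Finset α) (V : Finset α) : Prop where
  deg : ∀ x ∈ V, (univ.filter fun i => x ∈ b i).card = 5
  sz : ∀ i, (b i ∩ V).card ≤ 3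
  con : Con b V
  cov : ¬ Cv b V 4
  card : V.card = 10
  nb : nb b V = 17

/-- A labelling of `V`. -/
structure Lab (V : Finset α) (e : Fin 10 → α) : Prop where
  inj : Function.Injective e
  im : univ.image e = V

/-- The blocks of `K` are blocks of the system. -/
def Pres (b : ι → Finset α) (V : Finset α) (e : Fin 10 → α) (K : List ℕ) : Prop :=
  (K : Multiset ℕ) ≤ (mt b V).val.map (msk b e)

/-- `K` cannot occur. -/
def Inf (b : ι → Finset α) (V : Finset α) (K : List ℕ) : Prop :=
  ∀ e, Lab V e → ¬ Pres b V e K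

variable {b : ι → Finset α} {V : Finset α} {e : Fin 10 → α}

theorem Lab.mem (h : Lab V e) (x : Fin 10) : e x ∈ V := by
  rw [← h.im]
  exact mem_image_of_mem e (mem_univ x)

theorem Lab.ex (h : Lab V e) {v : α} (hv : v ∈ V) : ∃ x, e x = v := by
  rw [← h.im] at hv
  obtain ⟨x, _, hx⟩ := mem_image.mp hv
  exact ⟨x, hx⟩

theorem Lab.comp (h : Lab V e) {σ : Fin 10 → Fin 10} (hσ : Function.Surjective σ) :
    Lab V fun x => e (σ x) := by
  have hi : Function.Injective σ := Finite.injective_iff_surjective.mpr hσ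
  refine ⟨fun x y hxy => hi (h.inj hxy), ?_⟩
  rw [← h.im]
  ext v
  rw [mem_image, mem_image]
  constructor
  · rintro ⟨x, _, hx⟩
    exact ⟨σ x, mem_univ _, hx⟩
  · rintro ⟨x, _, hx⟩
    obtain ⟨y, rfl⟩ := hσ x
    exact ⟨y, mem_univ _, hx⟩

theorem toNat_dec (p : Prop) [Decidable p] : (decide p).toNat = if p then 1 else 0 := by
  by_cases h : p
  · rw [if_pos h, decide_eq_true h]
    rfl
  · rw [if_neg h, decide_eq_false h]
    rfl

theorem wt_msk {y : List ℕ} (hy : y.length = 10) (i : ι) :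
    wt y (msk b e i) = ∑ x : Fin 10, y.getD x 0 * (if e x ∈ b i then 1 else 0) := by
  rw [wt_eq, hy, Finset.sum_range]
  apply sum_congr rfl
  intro x _
  rw [msk_testBit, toNat_dec]

theorem deg_mt (h : Tn b V) {v : α} (hv : v ∈ V) :
    ((mt b V).filter fun i => v ∈ b i).card = 5 := by
  rw [← h.deg v hv]
  congr 1
  ext i
  rw [mem_filter, mem_filter, mem_mt]
  constructor
  · exact fun h1 => ⟨mem_univ i, h1.2⟩
  · exact fun h1 => ⟨⟨v, hv, h1.2⟩, h1.2⟩

theorem sum_wt (h : Tn b V) (he : Lab V e) {y : List ℕ} (hy : y.length = 10) :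
    ∑ i ∈ mt b V, wt y (msk b e i) = 5 * sl y := by
  rw [sum_congr rfl fun i _ => wt_msk hy i, sum_comm, sl_eq, hy, Finset.sum_range, mul_sum]
  apply sum_congr rfl
  intro x _
  rw [← mul_sum, ← card_filter, deg_mt h (he.mem x), mul_comm]

theorem pc_msk (he : Lab V e) (i : ι) : pc (msk b e i) = (b i ∩ V).card := by
  unfold pc
  rw [wt_msk rfl]
  have h1 : ∀ x : Fin 10, ([1, 1, 1, 1, 1, 1, 1, 1, 1, 1] : List ℕ).getD x 0 = 1 := by decide
  rw [sum_congr rfl fun x _ => by rw [h1 x, one_mul], ← card_filter,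
    ← card_image_of_injective _ he.inj]
  congr 1
  ext v
  rw [mem_image, mem_inter]
  constructor
  · rintro ⟨x, hx, rfl⟩
    exact ⟨(mem_filter.mp hx).2, he.mem x⟩
  · rintro ⟨h2, h3⟩
    obtain ⟨x, rfl⟩ := he.ex h3
    exact ⟨x, mem_filter.mpr ⟨mem_univ x, h2⟩, rfl⟩

theorem sum_card (h : Tn b V) (he : Lab V e) : ∑ i ∈ mt b V, (b i ∩ V).card = 50 := by
  rw [← sum_congr rfl fun i _ => pc_msk (b := b) he i]
  exact sum_wt h he (y := [1, 1, 1, 1, 1, 1, 1, 1, 1, 1]) rfl

theorem cards (h : Tn b V) (he : Lab V e) :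
    ((mt b V).filter fun i => (b i ∩ V).card = 3).card = 16 ∧
    ((mt b V).filter fun i => ¬ (b i ∩ V).card = 3).card = 1 ∧
    ∀ i ∈ mt b V, (b i ∩ V).card = 3 ∨ (b i ∩ V).card = 2 := by
  have h1 := sum_card h he
  have h2 := card_filter_add_card_filter_not (s := mt b V) fun i => (b i ∩ V).card = 3
  have h3 : (mt b V).card = 17 := h.nb
  rw [h3] at h2
  rw [← sum_filter_add_sum_filter_not (mt b V) (fun i => (b i ∩ V).card = 3)] at h1
  have h4 : ∑ i ∈ (mt b V).filter (fun i => (b i ∩ V).card = 3), (b i ∩ V).card =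
      3 * ((mt b V).filter fun i => (b i ∩ V).card = 3).card := by
    rw [sum_congr rfl fun i hi => (mem_filter.mp hi).2, sum_const, smul_eq_mul, mul_comm]
  have h5 : ∑ i ∈ (mt b V).filter (fun i => ¬ (b i ∩ V).card = 3), (b i ∩ V).card ≤
      2 * ((mt b V).filter fun i => ¬ (b i ∩ V).card = 3).card := by
    rw [mul_comm, ← smul_eq_mul]
    apply sum_le_card_nsmul
    intro i hi
    have h6 := (mem_filter.mp hi).2
    have h7 := h.sz i
    omega
  have h8 : ((mt b V).filter fun i => ¬ (b i ∩ V).card = 3).card = 1 := by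
    rcases Nat.eq_zero_or_pos ((mt b V).filter fun i => ¬ (b i ∩ V).card = 3).card with h9 | h9
    · rw [card_eq_zero] at h9
      rw [h9, sum_empty, h4] at h1
      omega
    · omega
  refine ⟨by omega, h8, fun i hi => ?_⟩
  by_cases h9 : (b i ∩ V).card = 3
  · exact Or.inl h9
  · right
    obtain ⟨j, hj⟩ := card_eq_one.mp h8
    have h10 : i = j := by
      have : i ∈ (mt b V).filter fun i => ¬ (b i ∩ V).card = 3 := mem_filter.mpr ⟨hi, h9⟩
      rw [hj, mem_singleton] at this
      exact this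
    rw [hj, sum_singleton, h4, ← h10] at h1
    omega

theorem sum_thr (h : Tn b V) (he : Lab V e) (c3 c2 : ℕ) :
    ∑ i ∈ mt b V, thr c3 c2 (msk b e i) = 16 * c3 + c2 := by
  obtain ⟨h1, h2, h3⟩ := cards h he
  have h4 : ∀ i, thr c3 c2 (msk b e i) = if (b i ∩ V).card = 3 then c3 else c2 := by
    intro i
    unfold thr
    rw [pc_msk he]
    by_cases h5 : (b i ∩ V).card = 3
    · rw [if_pos h5, h5]
      rfl
    · rw [if_neg h5, show Nat.beq (b i ∩ V).card 3 = false from by
        rw [← Bool.not_eq_true]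
        exact fun h6 => h5 (Nat.eq_of_beq_eq_true h6)]
      rfl
  rw [sum_congr rfl fun i _ => h4 i, sum_ite, sum_const, sum_const, h1, h2, smul_eq_mul,
    smul_eq_mul, one_mul]

theorem crs_iff {U m : ℕ} : crs U m = true ↔ m &&& U ≠ 0 ∧ m &&& U ≠ m := by
  have h1 : crs U m = cond (Nat.beq (m &&& U) 0) false (!Nat.beq (m &&& U) m) := rfl
  rw [h1]
  cases h2 : Nat.beq (m &&& U) 0 with
  | true =>
    rw [Bool.cond_true]
    constructor
    · intro h3
      exact absurd h3 Bool.false_ne_true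
    · rintro ⟨h3, _⟩
      exact absurd (Nat.eq_of_beq_eq_true h2) h3
  | false =>
    rw [Bool.cond_false, Bool.not_eq_true']
    constructor
    · intro h3
      exact ⟨Nat.ne_of_beq_eq_false h2, Nat.ne_of_beq_eq_false h3⟩
    · rintro ⟨_, h3⟩
      rw [← Bool.not_eq_true]
      exact fun h4 => h3 (Nat.eq_of_beq_eq_true h4)

theorem ex_bit {U : ℕ} (h0 : U ≠ 0) (h1 : U < 1024) : ∃ x : Fin 10, U.testBit x = true := by
  by_contra h2
  apply h0
  apply Nat.eq_of_testBit_eq
  intro x
  rw [Nat.zero_testBit]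
  rcases Nat.lt_or_ge x 10 with hx | hx
  · rw [← Bool.not_eq_true]
    exact fun h3 => h2 ⟨⟨x, hx⟩, h3⟩
  · exact Nat.testBit_lt_two_pow (lt_pow_aux (n := 10) h1 hx)

theorem ex_bit' {U : ℕ} (h1 : U < 1023) : ∃ x : Fin 10, U.testBit x = false := by
  by_contra h2
  have h3 : U = 1023 := by
    apply Nat.eq_of_testBit_eq
    intro x
    have h5 : (1023 : ℕ).testBit x = decide (x < 10) := Nat.testBit_two_pow_sub_one 10 x
    rw [h5]
    rcases Nat.lt_or_ge x 10 with hx | hx
    · rw [decide_eq_true hx]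
      by_contra h4
      rw [Bool.not_eq_true] at h4
      exact h2 ⟨⟨x, hx⟩, h4⟩
    · rw [decide_eq_false (by omega)]
      exact Nat.testBit_lt_two_pow (lt_pow_aux (n := 10) (by omega) hx)
  omega

theorem ex_crs (h : Tn b V) (he : Lab V e) {U : ℕ} (h0 : U ≠ 0) (h1 : U < 1023) :
    ∃ i ∈ mt b V, crs U (msk b e i) = true := by
  obtain ⟨x, hx⟩ := ex_bit h0 (by omega)
  obtain ⟨y, hy⟩ := ex_bit' h1
  have hA : (univ.filter fun x : Fin 10 => U.testBit x = true).image e ⊆ V := by
    intro v hv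
    obtain ⟨z, _, rfl⟩ := mem_image.mp hv
    exact he.mem z
  have h2 := Pool.Agent.Helper74.C5.con_not_sep h.con hA
    ⟨e x, mem_image_of_mem e (mem_filter.mpr ⟨mem_univ x, hx⟩)⟩
    ⟨e y, by
      rw [mem_sdiff]
      refine ⟨he.mem y, fun h3 => ?_⟩
      obtain ⟨z, hz, hzy⟩ := mem_image.mp h3
      have h4 := he.inj hzy
      rw [h4] at hz
      rw [(mem_filter.mp hz).2] at hy
      exact absurd hy.symm Bool.false_ne_true⟩
  unfold Pool.Agent.Helper20.C5.Sep at h2
  push Not at h2
  obtain ⟨i, v, hv, w, hw, hvi, hwi⟩ := h2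
  obtain ⟨z, hz, rfl⟩ := mem_image.mp hv
  obtain ⟨hw1, hw2⟩ := mem_sdiff.mp hw
  obtain ⟨t, rfl⟩ := he.ex hw1
  refine ⟨i, mem_mt.mpr ⟨e z, he.mem z, hvi⟩, crs_iff.mpr ⟨fun h3 => ?_, fun h3 => ?_⟩⟩
  · have h4 : (msk b e i &&& U).testBit z = true := by
      rw [Nat.testBit_and, msk_testBit, (mem_filter.mp hz).2, decide_eq_true hvi]
      rfl
    rw [h3, Nat.zero_testBit] at h4
    exact Bool.false_ne_true h4
  · have h4 : (msk b e i &&& U).testBit t = true := by
      rw [h3, msk_testBit]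
      exact decide_eq_true hwi
    rw [Nat.testBit_and, Bool.and_eq_true] at h4
    exact hw2 (mem_image_of_mem e (mem_filter.mpr ⟨mem_univ t, h4.2⟩))

theorem m3_spec : ∀ m < 1024, pc m = 3 → m ∈ m3 := by decide +kernel

theorem m2_spec : ∀ m < 1024, pc m = 2 → m ∈ m2 := by decide +kernel

theorem orp_mem (s : List ℕ) (x : ℕ) (hx : x < s.length) :
    (orp s).testBit (s.getD x 0) = true := by
  induction s generalizing x with
  | nil => exact absurd hx (by simp)
  | cons a s ih =>
    have h1 : orp (a :: s) = (1 <<< a) ||| orp s := rfl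
    rw [h1, Nat.testBit_or, Bool.or_eq_true]
    rcases x with _ | x
    · left
      rw [List.getD_cons_zero, Nat.one_shiftLeft, Nat.testBit_two_pow]
      exact decide_eq_true rfl
    · right
      rw [List.getD_cons_succ]
      exact ih x (by simpa using hx)

theorem ref_use (he : Lab V e) {T : List (List Rec)} {i : ℕ} {K : List ℕ} {m r : ℕ}
    (hc : ref T i K m r = true) (hIH : ∀ j < i, Inf b V (cfg T j))
    (hM : ((m :: K : List ℕ) : Multiset ℕ) ≤ (mt b V).val.map (msk b e)) : False := by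
  unfold ref at hc
  rw [cond_tt, cond_tt, cond_tt] at hc
  obtain ⟨_, h2, h3, h4⟩ := hc
  have hj : Nat.mod (Nat.div r 1024) 1024 < i := by
    rw [Nat.blt_eq] at h2
    exact h2
  have hs : orp (dp 10 (Nat.div r 1048576)) = 1023 := Nat.eq_of_beq_eq_true h3
  have hl : (dp 10 (Nat.div r 1048576)).length = 10 := dp_length 10 _
  revert hs hl h4
  generalize dp 10 (Nat.div r 1048576) = s
  intro h4 hs hl
  have h5 : ∀ x : ℕ, (1023 : ℕ).testBit x = decide (x < 10) := Nat.testBit_two_pow_sub_one 10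
  have h6 : ∀ x : Fin 10, s.getD x 0 < 10 := by
    intro x
    have h7 := orp_mem s x (by omega)
    rw [hs, h5] at h7
    exact of_decide_eq_true h7
  have hσ : Function.Surjective fun x : Fin 10 => (⟨s.getD x 0, h6 x⟩ : Fin 10) := by
    intro y
    have h7 : (orp s).testBit y = true := by
      rw [hs, h5]
      exact decide_eq_true y.2
    obtain ⟨x, hx, hxy⟩ := orp_testBit s y h7
    exact ⟨⟨x, by omega⟩, Fin.ext hxy⟩
  have h8 := he.comp hσ
  apply hIH _ hj _ h8
  unfold Pres
  refine (sub_le h4).trans ?_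
  have h9 := Multiset.map_le_map (f := pull s) hM
  rw [Multiset.map_coe, Multiset.map_map] at h9
  refine h9.trans (le_of_eq ?_)
  apply Multiset.map_congr rfl
  intro j _
  exact msk_pull b e j s _ hl fun x => rfl

theorem chm_use (he : Lab V e) (hcov : ¬ Cv b V 4) {T : List (List Rec)} {i : ℕ} {K y : List ℕ}
    {c lam U C : ℕ} {rs : List ℕ} {i0 : ι}
    (hc : chm T i K y c lam U C rs (msk b e i0) = true) (hIH : ∀ j < i, Inf b V (cfg T j))
    (hM : ((msk b e i0 :: K : List ℕ) : Multiset ℕ) ≤ (mt b V).val.map (msk b e))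
    (hG : G b e 3 (fun _ => False) C) :
    wt y (msk b e i0) + cw lam U (msk b e i0) ≤ c := by
  unfold chm at hc
  rw [cond_or, cond_or] at hc
  rcases hc with h1 | h1 | h1
  · exact Nat.le_of_ble_eq_true h1
  · exfalso
    rw [tb_eq] at h1
    obtain ⟨s, hs, h2⟩ := hG _ h1
    apply hcov
    refine ⟨insert i0 s, (card_insert_le i0 s).trans (Nat.add_le_add_right hs 1),
      fun v hv => ?_⟩
    obtain ⟨x, rfl⟩ := he.ex hv
    by_cases h3 : e x ∈ b i0
    · exact ⟨i0, mem_insert_self i0 s, h3⟩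
    · have h4 := Nat.testBit_two_pow_sub_succ (n := 10) (msk_lt b e i0) x
      rw [msk_testBit, decide_eq_false h3, decide_eq_true x.2] at h4
      have h5 : Nat.sub 1023 (msk b e i0) = 2 ^ 10 - (msk b e i0 + 1) := by
        show 1023 - msk b e i0 = 1024 - (msk b e i0 + 1)
        omega
      rcases h2 x (by rw [h5]; exact h4) with h6 | ⟨j, hj, h6⟩
      · exact h6.elim
      · exact ⟨j, mem_insert_of_mem hj, h6⟩
  · exfalso
    obtain ⟨r, _, h2⟩ := aan_iff.mp h1
    exact ref_use he h2 hIH hM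

/-- **A step.** -/
theorem step (h : Tn b V) {T : List (List Rec)} {i : ℕ} {r : Rec}
    (hc : chi T i r = true) (hIH : ∀ j < i, Inf b V (cfg T j)) : Inf b V (dk 12 r.k) := by
  intro e he hP
  unfold chi at hc
  revert hc hP
  generalize dk 12 r.k = K
  intro hc hP
  have hmem : ∀ t ∈ K, ∃ i, t = msk b e i := by
    intro t ht
    have h1 := Multiset.mem_of_le hP (Multiset.mem_coe.mpr ht)
    obtain ⟨i, _, hi⟩ := Multiset.mem_map.mp h1
    exact ⟨i, hi.symm⟩
  have hcb : ∀ x, ∃ i, e x ∈ b i := by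
    intro x
    have h1 := deg_mt h (he.mem x)
    obtain ⟨i, hi⟩ := card_pos.mp (by omega : 0 < ((mt b V).filter fun i => e x ∈ b i).card)
    exact ⟨i, (mem_filter.mp hi).2⟩
  have hG : G b e 3 (fun _ => False) (nxt K (nxt K (nxt K 1))) :=
    ((G.one.stepN hmem hcb).stepN hmem hcb).stepN hmem hcb
  revert hc hG
  generalize nxt K (nxt K (nxt K 1)) = C
  intro hc hG
  have hy : (dy 10 r.y).length = 10 := dy_length 10 _
  revert hc hy
  generalize dy 10 r.y = y
  intro hc hy
  unfold chr at hc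
  rw [cond_tt, cond_tt, cond_tt, aal_iff, aal_iff] at hc
  obtain ⟨hcut, hlt, hc3, hc2⟩ := hc
  rw [Nat.blt_eq] at hlt
  have hlt' : sw y K + 16 * r.c3 + r.c2 < 5 * sl y + st r.c3 r.c2 K + r.lam := hlt
  obtain ⟨R, hR⟩ := Multiset.le_iff_exists_add.mp hP
  -- no further block is possible
  have hlow : ∀ m ∈ R, wt y m + cw r.lam r.cut m ≤ thr r.c3 r.c2 m := by
    intro m hm
    have h1 : ((m :: K : List ℕ) : Multiset ℕ) ≤ (mt b V).val.map (msk b e) := by
      rw [hR, ← Multiset.cons_coe, ← Multiset.singleton_add, add_comm]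
      exact add_le_add_right (Multiset.singleton_le.mpr hm) _
    have h2 : m ∈ (mt b V).val.map (msk b e) := Multiset.mem_of_le h1 (by simp)
    obtain ⟨i0, hi0, rfl⟩ := Multiset.mem_map.mp h2
    have hlt0 := msk_lt b e i0
    have hpc := pc_msk (b := b) he i0
    unfold thr
    rcases (cards h he).2.2 i0 hi0 with h3 | h3
    · rw [h3] at hpc
      rw [hpc, show Nat.beq 3 3 = true from rfl, Bool.cond_true]
      exact chm_use he h.cov (hc3 _ (m3_spec _ hlt0 hpc)) hIH h1 hG
    · rw [h3] at hpc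
      rw [hpc, show Nat.beq 2 3 = false from rfl, Bool.cond_false]
      exact chm_use he h.cov (hc2 _ (m2_spec _ hlt0 hpc)) hIH h1 hG
  -- the sums
  have hs1 : 5 * sl y = sw y K + (R.map (wt y)).sum := by
    rw [← sum_wt h he hy, sw_eq]
    have h1 : ∑ i ∈ mt b V, wt y (msk b e i) = (((mt b V).val.map (msk b e)).map (wt y)).sum := by
      rw [Multiset.map_map]
      rfl
    rw [h1, hR, Multiset.map_add, Multiset.sum_add]
    rfl
  have hs2 : 16 * r.c3 + r.c2 = st r.c3 r.c2 K + (R.map (thr r.c3 r.c2)).sum := by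
    rw [← sum_thr h he, st_eq]
    have h1 : ∑ i ∈ mt b V, thr r.c3 r.c2 (msk b e i) =
        (((mt b V).val.map (msk b e)).map (thr r.c3 r.c2)).sum := by
      rw [Multiset.map_map]
      rfl
    rw [h1, hR, Multiset.map_add, Multiset.sum_add]
    rfl
  have hs3 : (R.map (wt y)).sum + (R.map (cw r.lam r.cut)).sum ≤
      (R.map (thr r.c3 r.c2)).sum := by
    rw [← Multiset.sum_map_add]
    exact Multiset.sum_map_le_sum_map _ _ hlow
  have hs4 : r.lam ≤ (R.map (cw r.lam r.cut)).sum := by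
    unfold chc at hcut
    rw [cond_or] at hcut
    rcases hcut with h1 | h1
    · rw [Nat.eq_of_beq_eq_true h1]
      exact Nat.zero_le _
    · cases h2 : Nat.beq r.cut 0 with
      | true =>
        rw [h2, Bool.cond_true] at h1
        exact absurd h1 Bool.false_ne_true
      | false =>
        rw [h2, Bool.cond_false, cond_tt, Nat.blt_eq, aal_iff] at h1
        obtain ⟨i0, hi0, h3⟩ := ex_crs h he (Nat.ne_of_beq_eq_false h2) h1.1
        have h4 : msk b e i0 ∈ (mt b V).val.map (msk b e) := Multiset.mem_map_of_mem _ hi0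
        rw [hR, Multiset.mem_add] at h4
        rcases h4 with h4 | h4
        · have h5 := h1.2 _ (Multiset.mem_coe.mp h4)
          rw [h3] at h5
          exact absurd h5 Bool.false_ne_true
        · have h5 := Multiset.le_sum_of_mem (Multiset.mem_map_of_mem (cw r.lam r.cut) h4)
          have h6 : cw r.lam r.cut (msk b e i0) = r.lam := by
            unfold cw
            rw [h3]
            rfl
          rw [h6] at h5
          exact h5
  omega

end Pool.Agent.Helper34.C5T
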