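import Pool.Agent.Helper34.C5T.Stp
import Pool.Agent.Helper34.C5T.Ok
import Pool.Agent.Helper74.C5.Cutting

/-!
# There is no critical connected system on ten points with potential minus one
-/

set_option linter.unusedSectionVars false

open Finset

namespace Pool.Agent.Helper34.C5T

open Pool.Agent.Helper20.C5

variable {α ι : Type} [DecidableEq α] [DecidableEq ι] [Fintype ι]

theorem inf_all {b : ι → Finset α} {V : Finset α} (h : Tn b V) :
    ∀ i, i < 215 → Inf b V (cfg tbl i) := by
  intro i
  induction i using Nat.strong_induction_on with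
  | _ i ih =>
    intro hi
    exact step h (ok hi) fun j hj => ih j hj (hj.trans hi)

theorem cfg_last : cfg tbl 214 = [] := by decide +kernel

/-- **Ten points.** -/
theorem not_tn {b : ι → Finset α} {V : Finset α} (h : Tn b V) : False := by
  have h1 := inf_all h 214 (by norm_num)
  rw [cfg_last] at h1
  have h2 := (Finset.equivFinOfCardEq h.card).symm
  refine h1 (fun x => ((h2 x : {v // v ∈ V}) : α)) ⟨?_, ?_⟩ (Multiset.zero_le _)
  · intro x y hxy
    exact h2.injective (Subtype.ext hxy)
  · ext v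
    rw [mem_image]
    constructor
    · rintro ⟨x, _, rfl⟩
      exact (h2 x).2
    · intro hv
      exact ⟨h2.symm ⟨v, hv⟩, mem_univ _, by rw [Equiv.apply_symm_apply]⟩

theorem sum_blk {b : ι → Finset α} {V : Finset α} (hsys : Sys b V) :
    ∑ i ∈ mt b V, (b i ∩ V).card = 5 * V.card := by
  have h1 : ∑ i ∈ mt b V, (b i ∩ V).card = ∑ i, (b i ∩ V).card := by
    apply sum_subset (subset_univ _)
    intro i _ hi
    rw [card_eq_zero, eq_empty_iff_forall_notMem]
    intro x hx
    exact hi (mem_mt.mpr ⟨x, (mem_inter.mp hx).2, (mem_inter.mp hx).1⟩)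
  rw [h1]
  have h2 : ∀ i, (b i ∩ V).card = ∑ x ∈ V, if x ∈ b i then 1 else 0 := by
    intro i
    rw [← card_filter]
    congr 1
    ext x
    rw [mem_inter, mem_filter, and_comm]
  rw [sum_congr rfl fun i _ => h2 i, sum_comm, mul_comm, ← smul_eq_mul, ← sum_const]
  apply sum_congr rfl
  intro x hx
  rw [← card_filter, hsys.deg x hx]

theorem sp_count {b : ι → Finset α} {V : Finset α} (hsys : Sys b V) :
    5 * V.card + 4 * (sp b V).card ≤ 3 * nb b V := by
  classical
  have h1 := Pool.Agent.Helper74.C5.two_sp (b := b) (V := V) (T := sp b V) (Subset.refl _)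
  have h2 : ∑ i ∈ mt b V, ((b i ∩ V).card + 2 * if ∃ s ∈ sp b V, b i ∩ V = {s} then 1 else 0) ≤
      ∑ i ∈ mt b V, 3 := by
    apply sum_le_sum
    intro i _
    have h3 := hsys.sz i
    by_cases h4 : ∃ s ∈ sp b V, b i ∩ V = {s}
    · rw [if_pos h4]
      obtain ⟨s, _, hs⟩ := h4
      rw [hs, card_singleton]
    · rw [if_neg h4]
      omega
  rw [sum_add_distrib, sum_blk hsys, ← mul_sum, ← card_filter, sum_const, smul_eq_mul] at h2
  have h5 : (univ.filter fun i => ∃ s ∈ sp b V, b i ∩ V = {s}) ⊆
      (mt b V).filter fun i => ∃ s ∈ sp b V, b i ∩ V = {s} := by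
    intro i hi
    have h6 := (mem_filter.mp hi).2
    refine mem_filter.mpr ⟨?_, h6⟩
    obtain ⟨s, _, hs⟩ := h6
    have h7 : s ∈ b i ∩ V := by
      rw [hs]
      exact mem_singleton_self s
    exact mem_mt.mpr ⟨s, (mem_inter.mp h7).2, (mem_inter.mp h7).1⟩
  have h8 := card_le_card h5
  unfold nb
  omega

/-- **At most ten points, reduced excess minus one: only type `D`.** -/
theorem ten {b : ι → Finset α} {V : Finset α} (hsys : Sys b V) (hcon : Con b V)
    (hCt : 2 * tau b V = V.card) (hnD : ¬ Dt b V)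
    (he : ee b V - ((sp b V).card : ℤ) = -1) (hm : V.card ≤ 10) : False := by
  have h1 := sp_count hsys
  unfold ee at he
  have h2 : V.card = 10 ∧ nb b V = 17 ∨ V.card = 6 ∧ nb b V = 10 ∧ tau b V = 3 := by
    have hs : (sp b V).card = 0 := by omega
    rw [hs] at h1 he
    rcases (by omega : tau b V = 0 ∨ tau b V = 1 ∨ tau b V = 2 ∨ tau b V = 3 ∨ tau b V = 4 ∨
      tau b V = 5) with h | h | h | h | h | h <;> rw [h] at he hCt <;> omega
  rcases h2 with ⟨h3, h4⟩ | h3
  · apply not_tn (b := b) (V := V)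
    refine ⟨hsys.deg, hsys.sz, hcon, fun h5 => ?_, h3, h4⟩
    have h6 := tau_le h5
    omega
  · exact hnD h3

end Pool.Agent.Helper34.C5T
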