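import Pool.Agent.Helper34.C5T.Ten
import Pool.Agent.Helper20.C5.Asm

/-!
# The case of reduced excess minus one
-/

set_option linter.unusedSectionVars false

open Finset

namespace Pool.Agent.Helper34.C5T

open Pool.Agent.Helper20.C5

theorem ten20 : Pool.Agent.Helper20.C5.Ten := by
  intro α ι _ _ _ b V h he
  have h1 := h.neg
  unfold Pool.Agent.Helper74.C5.Pot at h1
  exact ten h.sys h.con h.tf h.nD he (by have := h.tf; omega)

end Pool.Agent.Helper34.C5T
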